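import Mathlib
import Pool.Agent.Q166.SyncCore

/-!
# MP_ab4491_co: descents on even and odd permutations are strongly synchronised

Proof: with `E n k` the Eulerian numbers and `SD n k` the signed Eulerian numbers (for `n + 1`
elements), `2 A^± = E ± SD`.  Inserting the two largest values gives a two-step recurrence for
`SD`, from which `(n + 3) |SD n k| ≤ E n k` for `0 < k < n`; the Eulerian numbers are
ultra-log-concave, and the two facts together give the inequality.
-/

set_option autoImplicit false

namespace Pool.Agent.Results.MP_ab4491_co.StrongSync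

open Pool.Agent.H24R3.Eul Q166.SgnDes Q166.SyncIneq Q166.EulULC Q166.SyncCore

/-- For every `n ≥ 1` the sequences `(A^+_{n,k})_{k=0}^{n-1}` and `(A^-_{n,k})_{k=0}^{n-1}` are
strongly synchronised. -/
theorem result : ∀ n : ℕ, 1 ≤ n → StronglySynchronised (n - 1) (APlus n) (AMinus n) := by
  intro n hn
  obtain ⟨m, rfl⟩ : ∃ m, n = m + 1 := ⟨n - 1, by omega⟩
  rw [show m + 1 - 1 = m by omega]
  rcases Nat.lt_or_ge m 3 with h | h
  · intro k hk1 hk2
    have hm : m = 2 := by omega
    have hk : k = 1 := by omega
    subst hm hk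
    have p0 := APlus_eq 2 0
    have p1 := APlus_eq 2 1
    have p2 := APlus_eq 2 2
    have q0 := AMinus_eq 2 0
    have q1 := AMinus_eq 2 1
    have q2 := AMinus_eq 2 2
    have s20 : SD 2 0 = 1 := by rw [SD_zero, SD_0]; simp
    have s21 : SD 2 1 = 0 := by rw [SD_one, SD_0, SD_0]; simp
    have s22 : SD 2 2 = -1 := by
      rw [show (2 : ℕ) = 0 + 2 by rfl, SD_rec, SD_0, SD_0, SD_0]; norm_num
    have e1 : E 2 1 = 4 := by rw [E_one, E_one, E_big 0 1 (by omega)]; norm_num
    rw [s20, E_zero] at p0 q0
    rw [s21, e1] at p1 q1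
    rw [s22, E_top] at p2 q2
    have a0 : APlus (2 + 1) 0 = 1 := by omega
    have a1 : APlus (2 + 1) 1 = 2 := by omega
    have a2 : APlus (2 + 1) 2 = 0 := by omega
    have b0 : AMinus (2 + 1) 0 = 0 := by omega
    have b1 : AMinus (2 + 1) 1 = 2 := by omega
    have b2 : AMinus (2 + 1) 2 = 1 := by omega
    rw [a1, b1, show 1 - 1 = 0 by rfl, a0, b0, show 1 + 1 = 2 by rfl, a2, b2]
    norm_num
  · apply sync_of m h _ _ (SD m) (fun k => -SD m k) (fun k => |SD m k|)
    · exact APlus_eq m
    · intro k
      have := AMinus_eq m k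
      rw [this]; ring
    · intro k; exact le_rfl
    · intro k; exact le_of_eq (abs_neg _)
    · intro k; exact SD_le m k
    · intro k h1 h2; exact SD_bound m (by omega) k h1 h2

end Pool.Agent.Results.MP_ab4491_co.StrongSync
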